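import Mathlib

/-!
# Subgroups of rank one (helper168)
-/

set_option autoImplicit false

namespace Pool.Agent.Q168.EC

variable {A : Type} [AddCommGroup A] {n : ℕ}

theorem small_zero (ψ : A →+ EuclideanSpace ℝ (Fin n)) (ht : A → ℝ) (C : ℝ)
    (hC : ∀ P, |‖ψ P‖ ^ 2 - ht P| ≤ C) (hf : ∀ B : ℝ, {P | ht P ≤ B}.Finite) :
    ∃ δ : ℝ, 0 < δ ∧ ∀ P, ‖ψ P‖ < δ → ψ P = 0 := by
  classical
  have h1 : {P | ht P ≤ 1 + C}.Finite := hf _
  by_cases hne : ∃ P, ht P ≤ 1 + C ∧ ψ P ≠ 0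
  · set T := h1.toFinset.filter (fun P => ψ P ≠ 0) with hT
    have hTn : T.Nonempty := by
      obtain ⟨P, hP, hP'⟩ := hne
      exact ⟨P, by simp [hT, hP, hP']⟩
    obtain ⟨P, hP, hmin⟩ := T.exists_min_image (fun P => ‖ψ P‖) hTn
    have hP' : ψ P ≠ 0 := (Finset.mem_filter.1 hP).2
    refine ⟨min 1 ‖ψ P‖, lt_min one_pos (norm_pos_iff.2 hP'), fun Q hQ => ?_⟩
    by_contra hQ0
    have h2 : ‖ψ Q‖ < 1 := hQ.trans_le (min_le_left _ _)
    have h3 : ht Q ≤ 1 + C := by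
      have := (abs_le.1 (hC Q)).1
      have h4 : ‖ψ Q‖ ^ 2 ≤ 1 := by
        have := norm_nonneg (ψ Q)
        nlinarith
      linarith
    have h5 := hmin Q (by simp [hT, h3, hQ0])
    exact absurd (hQ.trans_le (min_le_right _ _)) (not_lt.2 h5)
  · push Not at hne
    refine ⟨1, one_pos, fun Q hQ => hne Q ?_⟩
    have := (abs_le.1 (hC Q)).1
    have h4 : ‖ψ Q‖ ^ 2 ≤ 1 := by
      have := norm_nonneg (ψ Q)
      nlinarith
    linarith

theorem line (ψ : A →+ EuclideanSpace ℝ (Fin n)) (H : AddSubgroup A)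
    (hH : ∀ P ∈ H, ∀ Q ∈ H, ∃ a b : ℤ, (a ≠ 0 ∨ b ≠ 0) ∧ a • P + b • Q = 0) :
    ∃ l : A →+ ℝ, ∀ P ∈ H, |l P| = ‖ψ P‖ := by
  by_cases h0 : ∃ P ∈ H, ψ P ≠ 0
  · obtain ⟨P₁, h1, h2⟩ := h0
    have h3 : ‖ψ P₁‖ ≠ 0 := norm_ne_zero_iff.2 h2
    let l : A →+ ℝ :=
      { toFun := fun P => ‖ψ P₁‖⁻¹ * inner ℝ (ψ P₁) (ψ P)
        map_zero' := by simp
        map_add' := fun P Q => by rw [map_add, inner_add_right, mul_add] }
    have hl : ∀ P, l P = ‖ψ P₁‖⁻¹ * inner ℝ (ψ P₁) (ψ P) := fun P => rfl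
    have hl1 : l P₁ = ‖ψ P₁‖ := by
      rw [hl, real_inner_self_eq_norm_sq]
      field_simp
    refine ⟨l, fun P hP => ?_⟩
    obtain ⟨a, b, hab, h4⟩ := hH P hP P₁ h1
    have h5 : a • ψ P + b • ψ P₁ = 0 := by
      have := congrArg ψ h4
      rwa [map_add, map_zsmul, map_zsmul, map_zero] at this
    have h6 : a • l P + b • l P₁ = 0 := by
      have := congrArg l h4
      rwa [map_add, map_zsmul, map_zsmul, map_zero] at this
    have h5' : a • ψ P = -(b • ψ P₁) := eq_neg_of_add_eq_zero_left h5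
    have h6' : a • l P = -(b • l P₁) := eq_neg_of_add_eq_zero_left h6
    have h7 : |(a : ℝ)| * ‖ψ P‖ = |(b : ℝ)| * ‖ψ P₁‖ := by
      have := congrArg norm h5'
      rw [norm_neg, ← Int.cast_smul_eq_zsmul ℝ, ← Int.cast_smul_eq_zsmul ℝ, norm_smul, norm_smul,
        Real.norm_eq_abs, Real.norm_eq_abs] at this
      exact this
    have h8 : |(a : ℝ)| * |l P| = |(b : ℝ)| * ‖ψ P₁‖ := by
      have := congrArg abs h6'
      rw [abs_neg, zsmul_eq_mul, zsmul_eq_mul, abs_mul, abs_mul, hl1, abs_norm] at this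
      exact this
    have ha : a ≠ 0 := by
      intro ha
      rw [ha, Int.cast_zero, abs_zero, zero_mul] at h7
      have hb := (mul_eq_zero.1 h7.symm).resolve_right h3
      rw [abs_eq_zero, Int.cast_eq_zero] at hb
      rcases hab with h | h
      · exact h ha
      · exact h hb
    have ha' : |(a : ℝ)| ≠ 0 := abs_ne_zero.2 (Int.cast_ne_zero.2 ha)
    exact mul_left_cancel₀ ha' (h8.trans h7.symm)
  · push Not at h0
    exact ⟨0, fun P hP => by rw [h0 P hP, norm_zero, AddMonoidHom.zero_apply, abs_zero]⟩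

/-- few points of small height in a subgroup of rank at most one -/
theorem few (ψ : A →+ EuclideanSpace ℝ (Fin n)) (ht : A → ℝ) (C : ℝ)
    (hC : ∀ P, |‖ψ P‖ ^ 2 - ht P| ≤ C) (hf : ∀ B : ℝ, {P | ht P ≤ B}.Finite)
    (H : AddSubgroup A) (hH : ∀ P ∈ H, ∀ Q ∈ H, ∃ a b : ℤ, (a ≠ 0 ∨ b ≠ 0) ∧ a • P + b • Q = 0) :
    ∃ D : ℝ, ∀ (N : ℕ) (s : Finset A), (∀ P ∈ s, P ∈ H ∧ ht P ≤ (N : ℝ) ^ 2) →
      (s.card : ℝ) ≤ D * (N + 1) := by
  classical
  obtain ⟨δ, hδ, hδ'⟩ := small_zero ψ ht C hC hf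
  have hC0 : 0 ≤ C := (abs_nonneg _).trans (hC 0)
  obtain ⟨l, hl⟩ := line ψ H hH
  set k := (hf C).toFinset.card with hk
  refine ⟨(k : ℝ) * (2 * ((1 + C) / δ) + 2), fun N s hs => ?_⟩
  have h1 : ∀ z ∈ s.image (fun P => ⌊l P / δ⌋),
      (s.filter (fun P => ⌊l P / δ⌋ = z)).card ≤ k := by
    intro z _
    rcases (s.filter (fun P => ⌊l P / δ⌋ = z)).eq_empty_or_nonempty with h0 | ⟨P₀, hP₀⟩
    · rw [h0, Finset.card_empty]; exact Nat.zero_le _
    · rw [Finset.mem_filter] at hP₀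
      have hinj : Function.Injective (fun P : A => P - P₀) := sub_left_injective
      rw [← Finset.card_image_of_injective _ hinj]
      refine Finset.card_le_card fun Q hQ => ?_
      obtain ⟨P, hP, rfl⟩ := Finset.mem_image.1 hQ
      rw [Finset.mem_filter] at hP
      have h2 : ψ (P - P₀) = 0 := by
        apply hδ'
        rw [← hl _ (H.sub_mem (hs P hP.1).1 (hs P₀ hP₀.1).1), map_sub]
        have h6 : |l P / δ - l P₀ / δ| < 1 :=
          Int.abs_sub_lt_one_of_floor_eq_floor (hP.2.trans hP₀.2.symm)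
        rw [← sub_div, abs_div, abs_of_pos hδ, div_lt_one hδ] at h6
        exact h6
      have h8 := (abs_le.1 (hC (P - P₀))).1
      rw [h2, norm_zero] at h8
      simp only [Set.Finite.mem_toFinset, Set.mem_ofPred_eq]
      linarith
  have h2 := Finset.card_le_mul_card_image s k h1
  set X : ℝ := (N + 1) * (1 + C) / δ with hX
  have hX0 : 0 ≤ X := by positivity
  have h3 : s.image (fun P => ⌊l P / δ⌋) ⊆ Finset.Icc ⌊-X⌋ ⌊X⌋ := by
    intro z hz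
    obtain ⟨P, hP, rfl⟩ := Finset.mem_image.1 hz
    have h4 : |l P| ≤ (N + 1) * (1 + C) := by
      rw [hl P (hs P hP).1]
      have h5 := (abs_le.1 (hC P)).2
      have h6 := (hs P hP).2
      have h7 : ‖ψ P‖ ^ 2 ≤ ((N + 1) * (1 + C)) ^ 2 := by
        have hN : (0 : ℝ) ≤ N := Nat.cast_nonneg _
        have : (N : ℝ) ^ 2 + C ≤ ((N + 1) * (1 + C)) ^ 2 := by
          have h8 : (1 : ℝ) ≤ (1 + C) ^ 2 := by nlinarith
          have h9 : C ≤ (1 + C) ^ 2 := by nlinarith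
          have h10 : ((N : ℝ) + 1) ^ 2 = N ^ 2 + 2 * N + 1 := by ring
          rw [mul_pow, h10]
          nlinarith [mul_nonneg (sq_nonneg (N : ℝ)) (sub_nonneg.2 h8),
            mul_nonneg hN (sq_nonneg (1 + C))]
        linarith
      exact (pow_le_pow_iff_left₀ (norm_nonneg _) (by positivity) two_ne_zero).1 h7
    have h5 : |l P / δ| ≤ X := by
      rw [abs_div, abs_of_pos hδ, hX]
      exact div_le_div_of_nonneg_right h4 hδ.le
    rw [Finset.mem_Icc]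
    exact ⟨Int.floor_le_floor (abs_le.1 h5).1, Int.floor_le_floor (abs_le.1 h5).2⟩
  have h4 := Finset.card_le_card h3
  have h5 : ((Finset.Icc ⌊-X⌋ ⌊X⌋).card : ℝ) ≤ 2 * X + 2 := by
    rw [Int.card_Icc]
    have h6 : ⌊-X⌋ ≤ ⌊X⌋ := Int.floor_le_floor (by linarith)
    have h7 : (((⌊X⌋ + 1 - ⌊-X⌋).toNat : ℤ) : ℝ) = (⌊X⌋ : ℝ) + 1 - ⌊-X⌋ := by
      rw [Int.toNat_of_nonneg (by omega)]
      push_cast
      ring
    have h8 : (((⌊X⌋ + 1 - ⌊-X⌋).toNat : ℕ) : ℝ) = (((⌊X⌋ + 1 - ⌊-X⌋).toNat : ℤ) : ℝ) := by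
      norm_cast
    rw [h8, h7]
    have h9 := Int.floor_le X
    have h10 := Int.lt_floor_add_one (-X)
    linarith
  have h6 : (s.card : ℝ) ≤ k * ((s.image (fun P => ⌊l P / δ⌋)).card : ℝ) := by exact_mod_cast h2
  have h7 : ((s.image (fun P => ⌊l P / δ⌋)).card : ℝ) ≤ 2 * X + 2 :=
    (by exact_mod_cast h4 : ((s.image (fun P => ⌊l P / δ⌋)).card : ℝ) ≤
      ((Finset.Icc ⌊-X⌋ ⌊X⌋).card : ℝ)).trans h5
  have h8 : (2 : ℝ) * X + 2 ≤ (2 * ((1 + C) / δ) + 2) * (N + 1) := by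
    have hN : (0 : ℝ) ≤ N := Nat.cast_nonneg _
    have : X = (1 + C) / δ * (N + 1) := by rw [hX]; ring
    rw [this]
    nlinarith
  calc (s.card : ℝ) ≤ k * ((s.image (fun P => ⌊l P / δ⌋)).card : ℝ) := h6
    _ ≤ k * ((2 * ((1 + C) / δ) + 2) * (N + 1)) :=
        mul_le_mul_of_nonneg_left (h7.trans h8) (Nat.cast_nonneg _)
    _ = _ := by ring

/-- many points of small height in a group of rank at least two -/
theorem many (ψ : A →+ EuclideanSpace ℝ (Fin n)) (ht : A → ℝ) (C : ℝ)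
    (hC : ∀ P, |‖ψ P‖ ^ 2 - ht P| ≤ C) (P Q : A)
    (hPQ : ∀ a b : ℤ, a • P + b • Q = 0 → a = 0 ∧ b = 0) :
    ∃ C₁ : ℕ, ∀ N : ℕ, ∃ s : Finset A, s.card = N ^ 2 ∧ ∀ x ∈ s, ht x ≤ ((C₁ : ℝ) * (N + 1)) ^ 2 := by
  classical
  obtain ⟨C₁, hC₁⟩ := exists_nat_gt (‖ψ P‖ + ‖ψ Q‖ + 1 + C)
  have hC0 : 0 ≤ C := (abs_nonneg _).trans (hC 0)
  refine ⟨C₁, fun N => ?_⟩
  set f : ℕ × ℕ → A := fun x => x.1 • P + x.2 • Q with hf
  have hinj : Function.Injective f := by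
    rintro ⟨a, b⟩ ⟨a', b'⟩ h
    simp only [hf] at h
    have h1 := hPQ ((a : ℤ) - a') ((b : ℤ) - b') (by
      rw [sub_smul, sub_smul, natCast_zsmul, natCast_zsmul, natCast_zsmul, natCast_zsmul]
      have : a • P - a' • P + (b • Q - b' • Q) = (a • P + b • Q) - (a' • P + b' • Q) := by abel
      rw [this, h, sub_self])
    rw [Prod.mk.injEq]
    omega
  refine ⟨(Finset.range N ×ˢ Finset.range N).image f, ?_, fun x hx => ?_⟩
  · rw [Finset.card_image_of_injective _ hinj, Finset.card_product, Finset.card_range, sq]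
  · obtain ⟨⟨a, b⟩, hab, rfl⟩ := Finset.mem_image.1 hx
    rw [Finset.mem_product, Finset.mem_range, Finset.mem_range] at hab
    simp only at hab
    have h1 := (abs_le.1 (hC (f (a, b)))).1
    have h2 : ‖ψ (f (a, b))‖ ≤ N * (‖ψ P‖ + ‖ψ Q‖) := by
      simp only [hf, map_add, map_nsmul]
      refine (norm_add_le _ _).trans ?_
      rw [← Nat.cast_smul_eq_nsmul ℝ, ← Nat.cast_smul_eq_nsmul ℝ, norm_smul, norm_smul,
        Real.norm_natCast, Real.norm_natCast, mul_add]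
      have ha : (a : ℝ) ≤ N := by exact_mod_cast hab.1.le
      have hb : (b : ℝ) ≤ N := by exact_mod_cast hab.2.le
      exact add_le_add (mul_le_mul_of_nonneg_right ha (norm_nonneg _))
        (mul_le_mul_of_nonneg_right hb (norm_nonneg _))
    have hS : 0 ≤ ‖ψ P‖ + ‖ψ Q‖ := by positivity
    have hN : (0 : ℝ) ≤ N := Nat.cast_nonneg _
    have h3 : ‖ψ (f (a, b))‖ ^ 2 ≤ (N * (‖ψ P‖ + ‖ψ Q‖)) ^ 2 :=
      pow_le_pow_left₀ (norm_nonneg _) h2 2
    have h4 : (N * (‖ψ P‖ + ‖ψ Q‖)) ^ 2 + C ≤ ((‖ψ P‖ + ‖ψ Q‖ + 1 + C) * (N + 1)) ^ 2 := by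
      set S := ‖ψ P‖ + ‖ψ Q‖
      have h5 : (S + 1 + C) * (N + 1) = N * S + (S + (1 + C) * (N + 1)) := by ring
      rw [h5]
      have h6 : 0 ≤ N * S := mul_nonneg hN hS
      have h7 : 1 + C ≤ S + (1 + C) * (N + 1) := by nlinarith
      nlinarith
    have h5 : ((‖ψ P‖ + ‖ψ Q‖ + 1 + C) * (N + 1)) ^ 2 ≤ ((C₁ : ℝ) * (N + 1)) ^ 2 :=
      pow_le_pow_left₀ (by positivity)
        (mul_le_mul_of_nonneg_right hC₁.le (by positivity)) 2
    linarith

end Pool.Agent.Q168.EC
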