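import Pool.Agent.Q168.EC.Cub
import Pool.Agent.Q168.EC.Lattice
import Pool.Agent.H437R2.Man.MW

/-!
# Heights on elliptic curves over number fields (helper168)
-/

set_option autoImplicit false

open WeierstrassCurve Height

namespace Pool.Agent.Q168.EC

/-- The curve `y² = x³ + a x + b`. -/
def crv {K : Type} [Field K] (a b : K) : WeierstrassCurve K :=
  { a₁ := 0, a₂ := 0, a₃ := 0, a₄ := a, a₆ := b }

theorem crv_eqn {K : Type} [Field K] {a b x y : K} :
    (crv a b).toAffine.Equation x y ↔ y ^ 2 = x ^ 3 + a * x + b := by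
  rw [WeierstrassCurve.Affine.equation_iff]
  simp only [crv]
  constructor <;> intro h <;> linear_combination h

theorem isHt (K L : Type) [Field K] [Field L] [NumberField L] [Algebra K L] :
    IsHt (fun x : K => logHeight₁ (algebraMap K L x)) (totalWeight L * Real.log 2) where
  nonneg x := zero_le_logHeight₁ _
  cnn := by positivity
  add x y := by rw [map_add]; exact logHeight₁_add_le _ _
  mul x y := by rw [map_mul]; exact logHeight₁_mul_le _ _
  inv x := by rw [map_inv₀]; exact logHeight₁_inv _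
  sq x := by rw [map_pow, logHeight₁_pow]; norm_num

/-- the roots of a cubic which splits -/
theorem roots_of {K L : Type} [Field K] [CharZero K] [Field L] [Algebra K L] (a b : K)
    (h : 4 * a ^ 3 + 27 * b ^ 2 ≠ 0) (hs : ((cub a b).map (algebraMap K L)).Splits) :
      ∃ e₁ e₂ e₃ : L, e₁ ≠ e₂ ∧ e₁ ≠ e₃ ∧ e₂ ≠ e₃ ∧ e₁ + e₂ + e₃ = 0 ∧
      e₁ * e₂ + e₁ * e₃ + e₂ * e₃ = algebraMap K L a ∧ e₁ * e₂ * e₃ = algebraMap K L b := by
  have : CharZero L := charZero_of_injective_algebraMap (algebraMap K L).injective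
  have hd : ((cub a b).map (algebraMap K L)).natDegree = 3 := by
    rw [Polynomial.natDegree_map, cub_deg]
  have hcard : ((cub a b).map (algebraMap K L)).roots.card = 3 := by
    rw [← hd]
    exact (Polynomial.splits_iff_card_roots.1 hs)
  obtain ⟨r₁, r₂, r₃, hr⟩ := Multiset.card_eq_three.1 hcard
  have hmonic : ((cub a b).map (algebraMap K L)).Monic := by
    apply Polynomial.Monic.map
    unfold cub
    monicity!
  have hprod : (cub a b).map (algebraMap K L) =
      (Polynomial.X - Polynomial.C r₁) * (Polynomial.X - Polynomial.C r₂) *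
        (Polynomial.X - Polynomial.C r₃) := by
    have := hs.eq_prod_roots_of_monic hmonic
    rw [this, hr]
    simp [mul_assoc]
  have hev : ∀ x : L, x ^ 3 + algebraMap K _ a * x + algebraMap K _ b =
      (x - r₁) * (x - r₂) * (x - r₃) := by
    intro x
    have := congrArg (Polynomial.eval x) hprod
    simpa [cub] using this
  have h0 := hev 0
  have h1 := hev 1
  have h2 := hev (-1)
  have c1 : -(r₁) + -(r₂) + -(r₃) = (0 : L) := by
    have : (2 : L) ≠ 0 := two_ne_zero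
    apply mul_left_cancel₀ this
    linear_combination h0 * 2 - h1 - h2
  have c3 : -r₁ * -r₂ * -r₃ = algebraMap K L b := by linear_combination -h0
  have c2 : -r₁ * -r₂ + -r₁ * -r₃ + -r₂ * -r₃ = algebraMap K L a := by
    linear_combination h0 - h1 - c1
  have hdisc : (4 : L) * algebraMap K _ a ^ 3 + 27 * algebraMap K _ b ^ 2 =
      -((r₁ - r₂) * (r₁ - r₃) * (r₂ - r₃)) ^ 2 := by
    have e3 : r₃ = -r₁ - r₂ := by linear_combination -c1
    rw [← c2, ← c3, e3]
    ring
  have hne : (4 : L) * algebraMap K _ a ^ 3 + 27 * algebraMap K _ b ^ 2 ≠ 0 := by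
    intro h0
    apply h
    apply (algebraMap K L).injective
    rw [map_zero, ← h0]
    simp [map_ofNat]
  rw [hdisc, neg_ne_zero, pow_ne_zero_iff two_ne_zero, mul_ne_zero_iff, mul_ne_zero_iff] at hne
  refine ⟨-r₁, -r₂, -r₃, ?_, ?_, ?_, c1, c2, c3⟩
  · intro h; exact hne.1.1 (sub_eq_zero.2 (neg_injective h))
  · intro h; exact hne.1.2 (sub_eq_zero.2 (neg_injective h))
  · intro h; exact hne.2 (sub_eq_zero.2 (neg_injective h))

theorem exists_split {K : Type} [Field K] [NumberField K] (P : Polynomial K) :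
    ∃ (L : Type) (_ : Field L) (_ : NumberField L) (_ : Algebra K L),
      (P.map (algebraMap K L)).Splits :=
  ⟨P.SplittingField, inferInstance, NumberField.of_module_finite K P.SplittingField,
    inferInstance, Polynomial.SplittingField.splits P⟩

/-- the roots of finitely many cubics in an extension -/
theorem exists_roots {K : Type} [Field K] [NumberField K] (F : Finset (K × K))
    (hF : ∀ x ∈ F, 4 * x.1 ^ 3 + 27 * x.2 ^ 2 ≠ 0) :
    ∃ (L : Type) (_ : Field L) (_ : NumberField L) (_ : Algebra K L), ∀ x ∈ F,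
      ∃ e₁ e₂ e₃ : L, e₁ ≠ e₂ ∧ e₁ ≠ e₃ ∧ e₂ ≠ e₃ ∧ e₁ + e₂ + e₃ = 0 ∧
      e₁ * e₂ + e₁ * e₃ + e₂ * e₃ = algebraMap K L x.1 ∧ e₁ * e₂ * e₃ = algebraMap K L x.2 := by
  classical
  have hP0 : (∏ x ∈ F, cub x.1 x.2) ≠ 0 := Finset.prod_ne_zero_iff.2 fun x _ => cub_ne _ _
  obtain ⟨L, i1, i2, i3, hs⟩ := exists_split (∏ x ∈ F, cub x.1 x.2)
  refine ⟨L, i1, i2, i3, fun x hx => roots_of x.1 x.2 (hF x hx) ?_⟩
  exact hs.of_dvd
      ((Polynomial.map_ne_zero_iff (algebraMap K L).injective).2 hP0)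
      (Polynomial.map_dvd _ (Finset.dvd_prod_of_mem (fun x : K × K => cub x.1 x.2) hx))

/-- The embeddings of the groups of points in Euclidean spaces. -/
theorem embed {K : Type} [Field K] [NumberField K] [DecidableEq K] (F : Finset (K × K))
    (hF : ∀ x ∈ F, 4 * x.1 ^ 3 + 27 * x.2 ^ 2 ≠ 0) :
    ∃ (ht : K → ℝ) (c : ℝ), IsHt ht c ∧ ∀ x ∈ F, ∃ (HT : (crv x.1 x.2).toAffine.Point → ℝ) (n : ℕ)
      (ψ : (crv x.1 x.2).toAffine.Point →+ EuclideanSpace ℝ (Fin n)) (C : ℝ),
      (∀ P, |‖ψ P‖ ^ 2 - HT P| ≤ C) ∧ (∀ B : ℝ, {P | HT P ≤ B}.Finite) ∧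
      ∀ u v huv, HT (Affine.Point.some u v huv) = ht u := by
  classical
  obtain ⟨L, _, _, _, hL⟩ := exists_roots F hF
  refine ⟨fun x : K => logHeight₁ (algebraMap K L x), _, isHt K L, ?_⟩
  rintro ⟨a, b⟩ hab
  obtain ⟨e₁, e₂, e₃, h12, h13, h23, c1, c2, c3⟩ := hL _ hab
  simp only at c2 c3 ⊢
  have hW : Pool.Agent.H437R2.Man.MW.crv e₁ e₂ e₃ = (crv a b)⁄L := by
    simp only [Pool.Agent.H437R2.Man.MW.crv, crv, WeierstrassCurve.baseChange,
      WeierstrassCurve.map, map_zero, c1, c2, c3]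
  have h1 := Pool.Agent.H437R2.Man.MW.crv_embed h12 h13 h23
  have h2 : ∀ B : ℝ, {P : (Pool.Agent.H437R2.Man.MW.crv e₁ e₂ e₃).toAffine.Point |
      logHeight P.xRep ≤ B}.Finite := fun B => Pool.Agent.H437R2.Man.MW.finite_ht B
  rw [hW] at h1 h2
  obtain ⟨n, ψ, C, hC⟩ := h1
  let ι : (crv a b).toAffine.Point →+ ((crv a b)⁄L).toAffine.Point :=
    Affine.Point.map (W' := (crv a b).toAffine) (F := K) (K := L) (Algebra.ofId K L)
  have hι : Function.Injective ι := Affine.Point.map_injective _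
  have hx : ∀ x y hxy, (ι (Affine.Point.some x y hxy)).xRep = ![algebraMap K L x, 1] := by
    intro x y hxy
    rfl
  refine ⟨fun P => logHeight (ι P).xRep, n, ψ.comp ι, C, fun P => hC (ι P), fun B => ?_,
    fun x y hxy => ?_⟩
  · exact Set.Finite.preimage hι.injOn (h2 B)
  · show logHeight (ι _).xRep = logHeight₁ _
    rw [hx, logHeight₁_eq_logHeight]

/-- the abscissas of a subgroup of rank at most one are sparse -/
theorem sparse {K : Type} [Field K] [DecidableEq K] {a b : K} {ht : K → ℝ}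
    {HT : (crv a b).toAffine.Point → ℝ} {n : ℕ}
    {ψ : (crv a b).toAffine.Point →+ EuclideanSpace ℝ (Fin n)} {C : ℝ}
    (hC : ∀ P, |‖ψ P‖ ^ 2 - HT P| ≤ C) (hf : ∀ B : ℝ, {P | HT P ≤ B}.Finite)
    (hx : ∀ x y hxy, HT (Affine.Point.some x y hxy) = ht x)
    (H : AddSubgroup (crv a b).toAffine.Point)
    (hH : ∀ P ∈ H, ∀ Q ∈ H, ∃ a b : ℤ, (a ≠ 0 ∨ b ≠ 0) ∧ a • P + b • Q = 0) :
    Sparse ht {x | ∃ y hxy, Affine.Point.some x y hxy ∈ H} := by
  classical
  obtain ⟨D, hD⟩ := few ψ HT C hC hf H hH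
  refine ⟨D, fun N s hs => ?_⟩
  have h1 : ∀ x ∈ s, ∃ P ∈ H, ∃ y hxy, P = Affine.Point.some x y hxy := by
    intro x hx'
    obtain ⟨⟨y, hxy, hy⟩, -⟩ := hs x hx'
    exact ⟨_, hy, y, hxy, rfl⟩
  choose! g hg hg' using h1
  have hinj : Set.InjOn g s := by
    intro x hx1 x' hx2 h
    obtain ⟨y, hxy, h3⟩ := hg' x hx1
    obtain ⟨y', hxy', h4⟩ := hg' x' hx2
    rw [h3, h4] at h
    exact (Affine.Point.some.inj h).1
  rw [← Finset.card_image_of_injOn hinj]
  refine hD N _ fun P hP => ?_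
  obtain ⟨x, hx1, rfl⟩ := Finset.mem_image.1 hP
  refine ⟨hg x hx1, ?_⟩
  obtain ⟨y, hxy, h3⟩ := hg' x hx1
  rw [h3, hx]
  exact (hs x hx1).2

/-- coordinates of a point -/
def crd {K : Type} [Field K] {a b : K} : (crv a b).toAffine.Point → (Fin 2 → K)
  | 0 => 0
  | Affine.Point.some x y _ => ![x, y]

/-- a curve of rank at least two has many points of small height -/
theorem manyPts {K : Type} [Field K] [DecidableEq K] {a b : K} {ht : K → ℝ}
    {HT : (crv a b).toAffine.Point → ℝ} {n : ℕ}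
    {ψ : (crv a b).toAffine.Point →+ EuclideanSpace ℝ (Fin n)} {C : ℝ}
    (hC : ∀ P, |‖ψ P‖ ^ 2 - HT P| ≤ C)
    (hx : ∀ x y hxy, HT (Affine.Point.some x y hxy) = ht x) (P Q : (crv a b).toAffine.Point)
    (hPQ : ∀ a b : ℤ, a • P + b • Q = 0 → a = 0 ∧ b = 0) : Many ht a b := by
  classical
  obtain ⟨C₁, hC₁⟩ := many ψ HT C hC P Q hPQ
  refine ⟨C₁, fun N => ?_⟩
  obtain ⟨s, hs1, hs2⟩ := hC₁ N
  have h1 : ∀ P ∈ s.erase 0, ∃ x y hxy, P = Affine.Point.some x y hxy := by
    intro P hP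
    rcases P with _ | ⟨x, y, hxy⟩
    · exact absurd rfl (Finset.mem_erase.1 hP).1
    · exact ⟨x, y, hxy, rfl⟩
  refine ⟨(s.erase 0).image crd, ?_, fun v hv => ?_⟩
  · rw [Finset.card_image_of_injOn]
    · have := Finset.pred_card_le_card_erase (s := s) (a := 0)
      omega
    · intro P hP Q hQ h
      obtain ⟨x, y, hxy, rfl⟩ := h1 P hP
      obtain ⟨x', y', hxy', rfl⟩ := h1 Q hQ
      have h2 : x = x' := congrFun h 0
      have h3 : y = y' := congrFun h 1
      subst h2 h3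
      rfl
  · obtain ⟨P, hP, rfl⟩ := Finset.mem_image.1 hv
    obtain ⟨x, y, hxy, rfl⟩ := h1 P hP
    refine ⟨crv_eqn.1 hxy.1, ?_⟩
    have := hs2 _ (Finset.mem_erase.1 hP).2
    rw [hx] at this
    exact this

/-- The rank of the group of the points over `K` of the curve `y² = x³ + a x + b`. -/
noncomputable def rk {K : Type} [Field K] [DecidableEq K] (a b : K) : Cardinal :=
  Module.rank ℤ (crv a b).toAffine.Point

/-- The affine points, as pairs of elements of `K`, of the subgroup `H`. -/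
def aff {K : Type} [Field K] [DecidableEq K] {a b : K}
    (H : AddSubgroup (crv a b).toAffine.Point) : Set (K × K) :=
  {v | ∃ hv : (crv a b).toAffine.Nonsingular v.1 v.2, Affine.Point.some v.1 v.2 hv ∈ H}

theorem pair_of_rank {A : Type} [AddCommGroup A] (h : 2 ≤ Module.rank ℤ A) :
    ∃ P Q : A, ∀ a b : ℤ, a • P + b • Q = 0 → a = 0 ∧ b = 0 := by
  classical
  by_contra hcon
  push Not at hcon
  have h1 : Module.rank ℤ A ≤ (1 : ℕ) := by
    refine rank_le fun s hs => ?_
    by_contra h2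
    push Not at h2
    obtain ⟨P, hP, Q, hQ, hPQ⟩ := Finset.one_lt_card.1 h2
    obtain ⟨a, b, h3, h4⟩ := hcon P Q
    have h5 : LinearIndependent ℤ ![P, Q] := by
      have := hs.comp (![⟨P, hP⟩, ⟨Q, hQ⟩] : Fin 2 → s) (by
        intro i j hij
        fin_cases i <;> fin_cases j
        · rfl
        · exact absurd (congrArg Subtype.val hij) hPQ
        · exact absurd (congrArg Subtype.val hij).symm hPQ
        · rfl)
      convert this using 1
      funext i
      fin_cases i <;> rfl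
    rw [LinearIndependent.pair_iff] at h5
    obtain ⟨h6, h7⟩ := h5 a b h3
    exact h4 h6 h7
  have h2 := h.trans h1
  norm_num at h2

theorem dep_of_rank {A : Type} [AddCommGroup A] (H : AddSubgroup A) (h : Module.rank ℤ H ≤ 1) :
    ∀ P ∈ H, ∀ Q ∈ H, ∃ a b : ℤ, (a ≠ 0 ∨ b ≠ 0) ∧ a • P + b • Q = 0 := by
  intro P hP Q hQ
  by_contra hcon
  push Not at hcon
  have h5 : LinearIndependent ℤ ![(⟨P, hP⟩ : H), ⟨Q, hQ⟩] := by
    rw [LinearIndependent.pair_iff]
    intro a b hab
    by_contra h6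
    refine hcon a b ?_ (by simpa using congrArg Subtype.val hab)
    by_contra h7
    push Not at h7
    exact h6 h7
  have h6 := h5.cardinal_le_rank
  have h7 := h6.trans h
  simp at h7

theorem infinite_of_rank {A : Type} [AddCommGroup A] (h : Module.rank ℤ A = 1) : Infinite A := by
  by_contra hcon
  rw [not_infinite_iff_finite] at hcon
  have h0 : Module.rank ℤ A = 0 := by
    rw [rank_eq_zero_iff]
    intro x
    refine ⟨(Nat.card A : ℤ), by exact_mod_cast Nat.card_pos.ne', ?_⟩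
    rw [natCast_zsmul]
    exact card_nsmul_eq_zero'
  rw [h0] at h
  exact zero_ne_one h

end Pool.Agent.Q168.EC
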