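import Pool.Agent.Q168.EC.Base
import Pool.Agent.Q168.RC.Image

/-!
# Varieties dominated by products of elliptic curves of rank at least two and of varieties with
many rational curves (helper168)
-/

set_option autoImplicit false

open MvPolynomial WeierstrassCurve Pool.Agent.Y718.FQ Pool.Agent.Q168.RC

namespace Pool.Agent.Q168.EC

/-- The least class of sets of points over `K` which contains
* the good sets (`Good`: sets with rational curves of unbounded degree, affine spaces, smooth
  quartic double covers, and what is built from them);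
* the sets `EPts a b` of the affine points over `K` of the elliptic curves `y² = x³ + a x + b` over
  `K` of rank at least two;
and is closed under finite unions, finite products, and dominated images: a set `S` belongs to it
if a rational map `f / c`, defined on a set `X` of the class, has its values in `S` and each
polynomial which vanishes at these values vanishes on `S`. -/
inductive Dominated (K : Type) [Field K] [DecidableEq K] : ∀ {σ : Type}, Set (σ → K) → Prop
  | good {σ : Type} {S : Set (σ → K)} : Good K S → Dominated K S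
  | curve (a b : K) : 4 * a ^ 3 + 27 * b ^ 2 ≠ 0 →
      2 ≤ rk a b → Dominated K (EPts a b)
  | union {σ : Type} {X Y : Set (σ → K)} : Dominated K X → Dominated K Y → Dominated K (X ∪ Y)
  | prod {ι : Type} [Fintype ι] {σ : ι → Type} {X : ∀ i, Set (σ i → K)} :
      (∀ i, Dominated K (X i)) →
      Dominated K {x : (i : ι) × σ i → K | ∀ i, (fun r => x ⟨i, r⟩) ∈ X i}
  | image {σ τ : Type} {X : Set (σ → K)} {S : Set (τ → K)} (f : τ → MvPolynomial σ K)
      (c : MvPolynomial σ K) : Dominated K X →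
      (∀ x ∈ X, eval x c ≠ 0 → (fun j => eval x (f j) / eval x c) ∈ S) →
      (∀ g : MvPolynomial τ K, (∀ x ∈ X, eval x c ≠ 0 →
        eval (fun j => eval x (f j) / eval x c) g = 0) → ∀ z ∈ S, eval z g = 0) →
      Dominated K S

/-- the elliptic curves used -/
theorem Dominated.exists_finset {K : Type} [Field K] [CharZero K] [DecidableEq K] (φ : K →+* ℂ)
    {σ : Type} {S : Set (σ → K)} (hS : Dominated K S) :
    ∃ F : Finset (K × K), (∀ x ∈ F, 4 * x.1 ^ 3 + 27 * x.2 ^ 2 ≠ 0 ∧
      2 ≤ rk x.1 x.2) ∧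
      ∀ (h : K → ℝ) (c : ℝ), IsHt h c → (∀ x ∈ F, Many h x.1 x.2) → ∀ O : Set K, Sparse h O →
        FCP O S := by
  classical
  induction hS with
  | good h =>
    exact ⟨∅, by simp, fun h' c hh _ O hO => h.fcp (hO.flat hh) φ⟩
  | curve a b hab hr =>
    refine ⟨{(a, b)}, ?_, fun h' c hh hm O hO => ?_⟩
    · intro x hx
      rw [Finset.mem_singleton.1 hx]
      exact ⟨hab, hr⟩
    · exact ((hm (a, b) (Finset.mem_singleton_self _)).cp hh hO).fcp
  | union _ _ h1 h2 =>
    obtain ⟨F, hF, h3⟩ := h1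
    obtain ⟨G, hG, h4⟩ := h2
    refine ⟨F ∪ G, fun x hx => ?_, fun h' c hh hm O hO => ?_⟩
    · rcases Finset.mem_union.1 hx with h | h
      · exact hF x h
      · exact hG x h
    · exact (h3 h' c hh (fun x hx => hm x (Finset.mem_union_left _ hx)) O hO).union
        (h4 h' c hh (fun x hx => hm x (Finset.mem_union_right _ hx)) O hO)
  | prod _ h =>
    choose F hF h3 using h
    refine ⟨Finset.univ.biUnion F, fun x hx => ?_, fun h' c hh hm O hO => ?_⟩
    · obtain ⟨i, -, hi⟩ := Finset.mem_biUnion.1 hx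
      exact hF i x hi
    · exact FCP.pi Pool.Agent.Y394.FQ.pi fun i => h3 i h' c hh
        (fun x hx => hm x (Finset.mem_biUnion.2 ⟨i, Finset.mem_univ _, hx⟩)) O hO
  | image f c _ h1 h2 h =>
    obtain ⟨F, hF, h3⟩ := h
    exact ⟨F, hF, fun h' c' hh hm O hO => FCP.image (h3 h' c' hh hm O hO) f c h1 h2⟩

/-- The values of the rational map `(p₁ / q, p₂ / q)` at the points `z ∈ S` with `q(z) ≠ 0`. -/
def vals {K : Type} [Field K] {σ : Type} (S : Set (σ → K)) (p₁ p₂ q : MvPolynomial σ K) :
    Set (K × K) :=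
  {v | ∃ z ∈ S, eval z q ≠ 0 ∧ v = (eval z p₁ / eval z q, eval z p₂ / eval z q)}

/-- **Rational maps with values in a subgroup of rank at most one.** -/
theorem finite_values {K : Type} [Field K] [NumberField K] [DecidableEq K] {a b : K}
    (hab : 4 * a ^ 3 + 27 * b ^ 2 ≠ 0)
    (H : AddSubgroup (crv a b).toAffine.Point) (hH : Module.rank ℤ H ≤ 1) {σ : Type}
    {S : Set (σ → K)} (hS : Dominated K S) (p₁ p₂ q : MvPolynomial σ K)
    (hv : vals S p₁ p₂ q ⊆ aff H) : (vals S p₁ p₂ q).Finite := by
  classical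
  obtain ⟨φ⟩ : Nonempty (K →+* ℂ) := inferInstance
  obtain ⟨F, hF, h3⟩ := hS.exists_finset φ
  obtain ⟨ht, c, hh, h4⟩ := embed (insert (a, b) F) (fun x hx => by
    rcases Finset.mem_insert.1 hx with rfl | h
    · exact hab
    · exact (hF x h).1)
  have hm : ∀ x ∈ F, Many ht x.1 x.2 := by
    intro x hx
    obtain ⟨HT, n, ψ, C, hC, hf, hx'⟩ := h4 x (Finset.mem_insert_of_mem hx)
    obtain ⟨P, Q, hPQ⟩ := pair_of_rank (hF x hx).2
    exact manyPts hC hx' P Q hPQ
  obtain ⟨HT, n, ψ, C, hC, hf, hx'⟩ := h4 (a, b) (Finset.mem_insert_self _ _)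
  have hO := sparse hC hf hx' H (dep_of_rank H hH)
  have h1 : {t | ∃ x ∈ S, eval x q ≠ 0 ∧ t = eval x p₁ / eval x q}.Finite :=
    (h3 ht c hh hm _ hO).values p₁ q fun x hx hq => by
      obtain ⟨hxy, h2⟩ := hv ⟨x, hx, hq, rfl⟩
      exact ⟨_, hxy, h2⟩
  have h2 : ∀ t : K, {y : K | y ^ 2 = t ^ 3 + a * t + b}.Finite := by
    intro t
    by_cases h0 : ∃ y : K, y ^ 2 = t ^ 3 + a * t + b
    · obtain ⟨y, hy⟩ := h0
      refine Set.Finite.subset (s := {y, -y}) (by simp) fun z hz => ?_
      have hz' : z ^ 2 = t ^ 3 + a * t + b := hz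
      exact sq_eq_sq_iff_eq_or_eq_neg.1 (hz'.trans hy.symm)
    · refine Set.Finite.subset Set.finite_empty fun z hz => absurd ⟨z, hz⟩ h0
  refine Set.Finite.subset (h1.biUnion fun t _ => (Set.finite_singleton t).prod (h2 t)) ?_
  rintro _ ⟨x, hx, hq, rfl⟩
  refine Set.mem_biUnion (x := eval x p₁ / eval x q) ⟨x, hx, hq, rfl⟩ ?_
  refine ⟨rfl, ?_⟩
  obtain ⟨hxy, -⟩ := hv ⟨x, hx, hq, rfl⟩
  exact crv_eqn.1 hxy.1

theorem aff_infinite {K : Type} [Field K] [DecidableEq K] {a b : K}
    (H : AddSubgroup (crv a b).toAffine.Point) (hH : Module.rank ℤ H = 1) :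
    (aff H).Infinite := by
  intro hfin
  have hinf : Infinite H := infinite_of_rank hH
  apply hinf.not_finite
  have h3 : (H : Set (crv a b).toAffine.Point).Finite := by
    have h4 : ((H : Set (crv a b).toAffine.Point) \ {0}).Finite := by
      refine Set.Finite.of_finite_image (f := fun P => ((crd P 0, crd P 1) : K × K))
        (hfin.subset ?_) ?_
      · rintro _ ⟨P, ⟨hP, hP0⟩, rfl⟩
        rcases P with _ | ⟨x, y, hxy⟩
        · exact absurd rfl hP0
        · exact ⟨hxy, hP⟩
      · rintro P ⟨-, hP0⟩ Q ⟨-, hQ0⟩ h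
        rcases P with _ | ⟨x, y, hxy⟩
        · exact absurd rfl hP0
        rcases Q with _ | ⟨x', y', hxy'⟩
        · exact absurd rfl hQ0
        have h5 : x = x' := congrArg Prod.fst h
        have h6 : y = y' := congrArg Prod.snd h
        subst h5 h6
        rfl
    exact (h4.union (Set.finite_singleton 0)).subset fun P hP => by
      by_cases h0 : P = 0
      · exact Or.inr h0
      · exact Or.inl ⟨hP, h0⟩
  exact h3

end Pool.Agent.Q168.EC
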