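import Mathlib

/-!
# Counting points of small height (helper168)
-/

set_option autoImplicit false

namespace Pool.Agent.Q168.EC

/-- properties of a height on a field -/
structure IsHt {K : Type} [Field K] (h : K → ℝ) (c : ℝ) : Prop where
  nonneg : ∀ x, 0 ≤ h x
  cnn : 0 ≤ c
  add : ∀ x y, h (x + y) ≤ c + h x + h y
  mul : ∀ x y, h (x * y) ≤ h x + h y
  inv : ∀ x, h x⁻¹ = h x
  sq : ∀ x, h (x ^ 2) = 2 * h x

/-- few elements of small height -/
def Sparse {K : Type} (h : K → ℝ) (O : Set K) : Prop :=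
  ∃ C : ℝ, ∀ (N : ℕ) (s : Finset K), (∀ o ∈ s, o ∈ O ∧ h o ≤ (N : ℝ) ^ 2) →
    (s.card : ℝ) ≤ C * (N + 1)

theorem Sparse.contra {K α : Type} {h : K → ℝ} {O : Set K} (hO : Sparse h O) (φ : α → K)
    (X : ℕ → Finset α) (m M C₁ : ℕ) (hX : ∀ N, N ^ 2 ≤ (X N).card + m)
    (h1 : ∀ N, ∀ x ∈ X N, φ x ∈ O ∧ h (φ x) ≤ ((C₁ : ℝ) * (N + 1)) ^ 2)
    (h2 : ∀ N o (s : Finset α), (∀ x ∈ s, x ∈ X N ∧ φ x = o) → s.card ≤ M) : False := by
  classical
  obtain ⟨C, hC⟩ := hO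
  have key : ∀ N : ℕ, (N : ℝ) ^ 2 ≤ M * (C * (C₁ * (N + 1) + 1)) + m := by
    intro N
    have h3 : (((X N).image φ).card : ℝ) ≤ C * (((C₁ * (N + 1) : ℕ) : ℝ) + 1) := by
      refine hC (C₁ * (N + 1)) _ fun o ho => ?_
      obtain ⟨x, hx, rfl⟩ := Finset.mem_image.1 ho
      refine ⟨(h1 N x hx).1, (h1 N x hx).2.trans (le_of_eq ?_)⟩
      push_cast
      ring
    have h4 : (X N).card ≤ M * ((X N).image φ).card := by
      refine Finset.card_le_mul_card_image _ M fun o _ => ?_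
      exact h2 N o _ fun x hx => by
        rw [Finset.mem_filter] at hx
        exact hx
    have h5 : ((N : ℝ)) ^ 2 ≤ ((X N).card : ℝ) + m := by exact_mod_cast hX N
    have h6 : ((X N).card : ℝ) ≤ M * (((X N).image φ).card : ℝ) := by exact_mod_cast h4
    have h7 : (M : ℝ) * (((X N).image φ).card : ℝ) ≤ M * (C * (((C₁ * (N + 1) : ℕ) : ℝ) + 1)) :=
      mul_le_mul_of_nonneg_left h3 (Nat.cast_nonneg M)
    push_cast at h7
    linarith
  obtain ⟨k, hk⟩ := exists_nat_gt ((M : ℝ) * |C| * (C₁ * 2 + 1) + m + 1)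
  have h8 := key k
  have hk1 : (1 : ℝ) ≤ k := by
    have : (0 : ℝ) ≤ (M : ℝ) * |C| * (C₁ * 2 + 1) + m := by positivity
    linarith
  have hC1 : C ≤ |C| := le_abs_self C
  have h9 : (M : ℝ) * (C * (C₁ * (k + 1) + 1)) ≤ M * (|C| * ((C₁ * 2 + 1) * k)) := by
    refine mul_le_mul_of_nonneg_left ?_ (Nat.cast_nonneg M)
    have h10 : (0 : ℝ) ≤ (C₁ : ℝ) * (k + 1) + 1 := by positivity
    refine (mul_le_mul_of_nonneg_right hC1 h10).trans ?_
    refine mul_le_mul_of_nonneg_left ?_ (abs_nonneg C)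
    have : (0 : ℝ) ≤ C₁ := Nat.cast_nonneg _
    nlinarith
  have h11 : (m : ℝ) ≤ m * k := by
    have : (0 : ℝ) ≤ m := Nat.cast_nonneg _
    nlinarith
  have h12 : (k : ℝ) ^ 2 ≤ ((M : ℝ) * |C| * (C₁ * 2 + 1) + m) * k := by
    nlinarith
  nlinarith

section ht

variable {K : Type} [Field K] {h : K → ℝ} {c : ℝ}

theorem IsHt.pow_le (hh : IsHt h c) (x : K) (n : ℕ) : h (x ^ n) ≤ n * h x + h 1 := by
  induction n with
  | zero => simp
  | succ n ih =>
    rw [pow_succ]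
    have := hh.mul (x ^ n) x
    push_cast
    linarith

theorem IsHt.mv (hh : IsHt h c) (g : MvPolynomial (Fin 2) K) : ∃ C : ℝ, 0 ≤ C ∧
    ∀ x : Fin 2 → K, h (MvPolynomial.eval x g) ≤ C * (1 + h (x 0) + h (x 1)) := by
  induction g using MvPolynomial.induction_on with
  | C a =>
    refine ⟨h a, hh.nonneg a, fun x => ?_⟩
    rw [MvPolynomial.eval_C]
    have h0 := hh.nonneg (x 0)
    have h1 := hh.nonneg (x 1)
    nlinarith [hh.nonneg a, mul_nonneg (hh.nonneg a) h0, mul_nonneg (hh.nonneg a) h1]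
  | add p q hp hq =>
    obtain ⟨C₁, h1, h2⟩ := hp
    obtain ⟨C₂, h3, h4⟩ := hq
    refine ⟨c + C₁ + C₂, by linarith [hh.cnn], fun x => ?_⟩
    rw [map_add]
    have h0 := hh.nonneg (x 0)
    have h1' := hh.nonneg (x 1)
    have h5 := hh.add (MvPolynomial.eval x p) (MvPolynomial.eval x q)
    have h6 := h2 x
    have h7 := h4 x
    nlinarith [hh.cnn, mul_nonneg hh.cnn h0, mul_nonneg hh.cnn h1']
  | mul_X p i hp =>
    obtain ⟨C₁, h1, h2⟩ := hp
    refine ⟨C₁ + 1, by linarith, fun x => ?_⟩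
    rw [map_mul, MvPolynomial.eval_X]
    have h5 := hh.mul (MvPolynomial.eval x p) (x i)
    have h6 := h2 x
    have h0 := hh.nonneg (x 0)
    have h1' := hh.nonneg (x 1)
    have h7 : h (x i) ≤ 1 + h (x 0) + h (x 1) := by
      fin_cases i
      · simp only [Fin.zero_eta]; linarith
      · simp only [Fin.mk_one]; linarith
    linarith

theorem IsHt.poly (hh : IsHt h c) (g : Polynomial K) : ∃ C : ℝ, 0 ≤ C ∧
    ∀ x : K, h (g.eval x) ≤ C * (1 + h x) := by
  induction g using Polynomial.induction_on' with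
  | monomial n a =>
    refine ⟨h a + n + h 1, by positivity [hh.nonneg a, hh.nonneg 1], fun x => ?_⟩
    rw [Polynomial.eval_monomial]
    have h0 := hh.nonneg x
    have h1 := hh.mul a (x ^ n)
    have h2 := hh.pow_le x n
    have h3 := hh.nonneg a
    have h4 := hh.nonneg 1
    have h5 : (0 : ℝ) ≤ n := Nat.cast_nonneg _
    nlinarith [mul_nonneg h3 h0, mul_nonneg h4 h0]
  | add p q hp hq =>
    obtain ⟨C₁, h1, h2⟩ := hp
    obtain ⟨C₂, h3, h4⟩ := hq
    refine ⟨c + C₁ + C₂, by linarith [hh.cnn], fun x => ?_⟩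
    rw [Polynomial.eval_add]
    have h0 := hh.nonneg x
    have h5 := hh.add (p.eval x) (q.eval x)
    have h6 := h2 x
    have h7 := h4 x
    nlinarith [hh.cnn, mul_nonneg hh.cnn h0]

end ht

end Pool.Agent.Q168.EC
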