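import Pool.Agent.Q168.EC.Count
import Pool.Agent.Y718.FQ.Stm

/-!
# Functions on elliptic curves with many points, with values in a sparse set (helper168)
-/

set_option autoImplicit false

open MvPolynomial

namespace Pool.Agent.Q168.EC

variable {K : Type} [Field K]

/-- The affine points over `K` of the curve `y² = x³ + a x + b`. -/
def EPts (a b : K) : Set (Fin 2 → K) := {v | v 1 ^ 2 = v 0 ^ 3 + a * v 0 + b}

/-- the cubic -/
noncomputable def cub (a b : K) : Polynomial K :=
  Polynomial.X ^ 3 + Polynomial.C a * Polynomial.X + Polynomial.C b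

theorem cub_eval (a b x : K) : (cub a b).eval x = x ^ 3 + a * x + b := by simp [cub]

theorem cub_deg (a b : K) : (cub a b).natDegree = 3 := by
  unfold cub
  compute_degree!

theorem cub_ne (a b : K) : cub a b ≠ 0 := by
  intro h
  have := cub_deg a b
  rw [h, Polynomial.natDegree_zero] at this
  omega

theorem normal (a b : K) (g : MvPolynomial (Fin 2) K) : ∃ A B : Polynomial K,
    ∀ v ∈ EPts a b, eval v g = A.eval (v 0) + B.eval (v 0) * v 1 := by
  induction g using MvPolynomial.induction_on with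
  | C c => exact ⟨Polynomial.C c, 0, fun v _ => by simp⟩
  | add p q hp hq =>
    obtain ⟨A, B, h1⟩ := hp
    obtain ⟨A', B', h2⟩ := hq
    refine ⟨A + A', B + B', fun v hv => ?_⟩
    rw [map_add, h1 v hv, h2 v hv, Polynomial.eval_add, Polynomial.eval_add]
    ring
  | mul_X p i hp =>
    obtain ⟨A, B, h1⟩ := hp
    fin_cases i
    · refine ⟨A * Polynomial.X, B * Polynomial.X, fun v hv => ?_⟩
      simp only [Fin.zero_eta, map_mul, eval_X, h1 v hv, Polynomial.eval_mul, Polynomial.eval_X]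
      ring
    · refine ⟨B * cub a b, A, fun v hv => ?_⟩
      have hv' : v 1 ^ 2 = v 0 ^ 3 + a * v 0 + b := hv
      simp only [Fin.mk_one, map_mul, eval_X, h1 v hv, Polynomial.eval_mul, cub_eval]
      rw [← hv']
      ring

theorem norm_ne {a b : K} {A B : Polynomial K} (h : A ^ 2 = B ^ 2 * cub a b) : A = 0 ∧ B = 0 := by
  by_cases hB : B = 0
  · rw [hB] at h
    refine ⟨?_, hB⟩
    have : A ^ 2 = 0 := by rw [h]; ring
    exact pow_eq_zero_iff two_ne_zero |>.1 this
  · exfalso
    have hd := congrArg Polynomial.natDegree h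
    rw [Polynomial.natDegree_pow, Polynomial.natDegree_mul (pow_ne_zero _ hB) (cub_ne a b),
      Polynomial.natDegree_pow, cub_deg] at hd
    omega

/-- zeros on the curve -/
theorem zeros {a b : K} {A B : Polynomial K} (hAB : ¬ (A = 0 ∧ B = 0)) (s : Finset (Fin 2 → K))
    (hs : ∀ v ∈ s, v ∈ EPts a b ∧ A.eval (v 0) + B.eval (v 0) * v 1 = 0) :
    s.card ≤ 2 * (2 * A.natDegree + 2 * B.natDegree + 3) := by
  classical
  have hN : A ^ 2 - B ^ 2 * cub a b ≠ 0 := fun h => hAB (norm_ne (sub_eq_zero.1 h))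
  have h1 : s.card ≤ 2 * (s.image (fun v => v 0)).card := by
    refine Finset.card_le_mul_card_image _ 2 fun x _ => ?_
    by_contra hcon
    push Not at hcon
    obtain ⟨v₁, v₂, v₃, h1, h2, h3, h12, h13, h23⟩ := Finset.two_lt_card_iff.1 hcon |> fun ⟨a, b, c, ha, hb, hc, hab, hac, hbc⟩ => (⟨a, b, c, ha, hb, hc, hab, hac, hbc⟩ : ∃ a b c, a ∈ _ ∧ b ∈ _ ∧ c ∈ _ ∧ a ≠ b ∧ a ≠ c ∧ b ≠ c)
    rw [Finset.mem_filter] at h1 h2 h3
    have e1 : v₁ 1 ^ 2 = v₁ 0 ^ 3 + a * v₁ 0 + b := (hs _ h1.1).1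
    have e2 : v₂ 1 ^ 2 = v₂ 0 ^ 3 + a * v₂ 0 + b := (hs _ h2.1).1
    have e3 : v₃ 1 ^ 2 = v₃ 0 ^ 3 + a * v₃ 0 + b := (hs _ h3.1).1
    rw [h1.2] at e1
    rw [h2.2] at e2
    rw [h3.2] at e3
    have n12 : v₁ 1 ≠ v₂ 1 := fun h => h12 (by
      funext i; fin_cases i
      · exact h1.2.trans h2.2.symm
      · exact h)
    have n13 : v₁ 1 ≠ v₃ 1 := fun h => h13 (by
      funext i; fin_cases i
      · exact h1.2.trans h3.2.symm
      · exact h)
    have n23 : v₂ 1 ≠ v₃ 1 := fun h => h23 (by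
      funext i; fin_cases i
      · exact h2.2.trans h3.2.symm
      · exact h)
    have q12 := (sq_eq_sq_iff_eq_or_eq_neg.1 (e1.trans e2.symm)).resolve_left n12
    have q13 := (sq_eq_sq_iff_eq_or_eq_neg.1 (e1.trans e3.symm)).resolve_left n13
    exact n23 (neg_injective (q12.symm.trans q13))
  have h2 : (s.image (fun v => v 0)).card ≤ (A ^ 2 - B ^ 2 * cub a b).natDegree := by
    refine le_trans (Finset.card_le_card (t := (A ^ 2 - B ^ 2 * cub a b).roots.toFinset) ?_)
      ((Multiset.toFinset_card_le _).trans (Polynomial.card_roots' _))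
    intro x hx
    obtain ⟨v, hv, rfl⟩ := Finset.mem_image.1 hx
    rw [Multiset.mem_toFinset, Polynomial.mem_roots hN, Polynomial.IsRoot.def,
      Polynomial.eval_sub, Polynomial.eval_mul, Polynomial.eval_pow, Polynomial.eval_pow, cub_eval]
    obtain ⟨e1, e2⟩ := hs v hv
    have e1' : v 1 ^ 2 = v 0 ^ 3 + a * v 0 + b := e1
    rw [← e1']
    linear_combination (A.eval (v 0) - B.eval (v 0) * v 1) * e2
  have h3 : (A ^ 2 - B ^ 2 * cub a b).natDegree ≤ 2 * A.natDegree + 2 * B.natDegree + 3 := by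
    refine (Polynomial.natDegree_sub_le _ _).trans (max_le ?_ ?_)
    · refine Polynomial.natDegree_pow_le.trans (by omega)
    · refine Polynomial.natDegree_mul_le.trans ?_
      rw [cub_deg]
      have := Polynomial.natDegree_pow_le (p := B) (n := 2)
      omega
  omega

/-- uniform bound for the fibres of a nonconstant function -/
theorem fibre (a b : K) (p q : MvPolynomial (Fin 2) K) : ∃ M : ℕ, ∀ o : K,
    (∀ v ∈ EPts a b, eval v p = o * eval v q) ∨
      ∀ s : Finset (Fin 2 → K), (∀ v ∈ s, v ∈ EPts a b ∧ eval v p = o * eval v q) →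
        s.card ≤ M := by
  obtain ⟨A, B, h1⟩ := normal a b p
  obtain ⟨A', B', h2⟩ := normal a b q
  refine ⟨2 * (2 * (A.natDegree + A'.natDegree) + 2 * (B.natDegree + B'.natDegree) + 3),
    fun o => ?_⟩
  by_cases h0 : A - Polynomial.C o * A' = 0 ∧ B - Polynomial.C o * B' = 0
  · refine Or.inl fun v hv => ?_
    rw [h1 v hv, h2 v hv, sub_eq_zero.1 h0.1, sub_eq_zero.1 h0.2]
    simp only [Polynomial.eval_mul, Polynomial.eval_C]
    ring
  · refine Or.inr fun s hs => ?_
    have h3 := zeros h0 s (fun v hv => ⟨(hs v hv).1, by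
      have h4 := (hs v hv).2
      rw [h1 v (hs v hv).1, h2 v (hs v hv).1] at h4
      simp only [Polynomial.eval_sub, Polynomial.eval_mul, Polynomial.eval_C]
      linear_combination h4⟩)
    have h5 : (A - Polynomial.C o * A').natDegree ≤ A.natDegree + A'.natDegree :=
      (Polynomial.natDegree_sub_le _ _).trans (max_le (by omega)
        ((Polynomial.natDegree_C_mul_le _ _).trans (by omega)))
    have h6 : (B - Polynomial.C o * B').natDegree ≤ B.natDegree + B'.natDegree :=
      (Polynomial.natDegree_sub_le _ _).trans (max_le (by omega)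
        ((Polynomial.natDegree_C_mul_le _ _).trans (by omega)))
    omega

/-- the curve has many points -/
def Many (h : K → ℝ) (a b : K) : Prop :=
  ∃ C₁ : ℕ, ∀ N : ℕ, ∃ s : Finset (Fin 2 → K), N ^ 2 ≤ s.card + 1 ∧
    ∀ v ∈ s, v ∈ EPts a b ∧ h (v 0) ≤ ((C₁ : ℝ) * (N + 1)) ^ 2

theorem Many.infinite {h : K → ℝ} {a b : K} (hm : Many h a b) : (EPts a b).Infinite := by
  classical
  intro hf
  obtain ⟨C₁, h1⟩ := hm
  obtain ⟨s, h2, h3⟩ := h1 (hf.toFinset.card + 2)
  have h4 : s.card ≤ hf.toFinset.card := Finset.card_le_card fun v hv => by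
    simpa using (h3 v hv).1
  nlinarith

open Pool.Agent.Y718.FQ in
theorem Many.cp {h : K → ℝ} {c : ℝ} (hh : IsHt h c) {a b : K} (hm : Many h a b) {O : Set K}
    (hO : Sparse h O) : CP O (EPts a b) := by
  classical
  have hz : ∀ g : MvPolynomial (Fin 2) K, (∀ v ∈ EPts a b, eval v g = 0) ∨
      ({v | v ∈ EPts a b ∧ eval v g = 0}).Finite := by
    intro g
    obtain ⟨M, hM⟩ := fibre a b g 0
    rcases hM 0 with h1 | h1
    · exact Or.inl fun v hv => by simpa using h1 v hv
    · refine Or.inr ?_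
      by_contra hcon
      obtain ⟨s, hs, hsc⟩ := Set.Infinite.exists_subset_card_eq hcon (M + 1)
      have := h1 s (fun v hv => by
        have := hs hv
        exact ⟨this.1, by rw [this.2]; simp⟩)
      omega
  refine ⟨hm.infinite.nonempty, ?_, ?_⟩
  · intro g k hgk
    rcases hz g with h1 | h1
    · exact Or.inl h1
    rcases hz k with h2 | h2
    · exact Or.inr h2
    exfalso
    apply hm.infinite
    refine (h1.union h2).subset fun v hv => ?_
    rcases hgk v hv with h3 | h3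
    · exact Or.inl ⟨hv, h3⟩
    · exact Or.inr ⟨hv, h3⟩
  · rintro p q hpq ⟨z, hz', hqz⟩
    by_contra hcon
    push Not at hcon
    obtain ⟨M, hM⟩ := fibre a b p q
    have hM' : ∀ o : K, ∀ s : Finset (Fin 2 → K),
        (∀ v ∈ s, v ∈ EPts a b ∧ eval v p = o * eval v q) → s.card ≤ M := by
      intro o
      rcases hM o with h1 | h1
      · obtain ⟨v, hv, hv'⟩ := hcon o
        exact absurd (h1 v hv) hv'
      · exact h1
    have hq : ({v | v ∈ EPts a b ∧ eval v q = 0}).Finite := by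
      rcases hz q with h1 | h1
      · exact absurd (h1 z hz') hqz
      · exact h1
    obtain ⟨C₁, h1⟩ := hm
    choose X hX1 hX2 using h1
    obtain ⟨Cp, hCp, hCp'⟩ := hh.mv p
    obtain ⟨Cq, hCq, hCq'⟩ := hh.mv q
    obtain ⟨Cf, hCf, hCf'⟩ := hh.poly (cub a b)
    obtain ⟨C₂, hC₂⟩ := exists_nat_gt ((Cp + Cq) * (2 + Cf) * (1 + (C₁ : ℝ) ^ 2) + 1)
    refine hO.contra (fun v => eval v p / eval v q) (fun N => (X N).filter (fun v => eval v q ≠ 0))
      (hq.toFinset.card + 1) M C₂ (fun N => ?_) (fun N v hv => ?_) (fun N o s hs => ?_)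
    · have h2 := hX1 N
      have h3 := Finset.card_filter_add_card_filter_not (s := X N) (fun v => eval v q ≠ 0)
      have h4 : ((X N).filter (fun v => ¬ (eval v q ≠ 0))).card ≤ hq.toFinset.card := by
        refine Finset.card_le_card fun v hv => ?_
        rw [Finset.mem_filter, not_not] at hv
        simp only [Set.Finite.mem_toFinset]
        exact ⟨(hX2 N v hv.1).1, hv.2⟩
      omega
    · rw [Finset.mem_filter] at hv
      obtain ⟨h2, h3⟩ := hX2 N v hv.1
      refine ⟨hpq v h2 hv.2, ?_⟩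
      have h4 : h (eval v p / eval v q) ≤ h (eval v p) + h (eval v q) := by
        rw [div_eq_mul_inv, ← hh.inv (eval v q)]
        exact hh.mul _ _
      have h5 : 2 * h (v 1) ≤ Cf * (1 + h (v 0)) := by
        rw [← hh.sq]
        have h6 : v 1 ^ 2 = (cub a b).eval (v 0) := by rw [cub_eval]; exact h2
        rw [h6]
        exact hCf' _
      have h6 := hCp' v
      have h7 := hCq' v
      set T : ℝ := ((C₁ : ℝ) * (N + 1)) ^ 2
      have h0 := hh.nonneg (v 0)
      have h1' := hh.nonneg (v 1)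
      have hT : 0 ≤ T := sq_nonneg _
      have h8 : 1 + h (v 0) + h (v 1) ≤ (2 + Cf) * (1 + T) := by
        have : Cf * (1 + h (v 0)) ≤ Cf * (1 + T) := mul_le_mul_of_nonneg_left (by linarith) hCf
        nlinarith [mul_nonneg hCf hT]
      have h9 : h (eval v p / eval v q) ≤ (Cp + Cq) * ((2 + Cf) * (1 + T)) := by
        have := mul_le_mul_of_nonneg_left h8 (add_nonneg hCp hCq)
        linarith
      have h10 : (1 : ℝ) ≤ ((N : ℝ) + 1) ^ 2 := by
        have : (0 : ℝ) ≤ N := Nat.cast_nonneg _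
        nlinarith
      have h11 : 1 + T ≤ (1 + (C₁ : ℝ) ^ 2) * ((N : ℝ) + 1) ^ 2 := by
        have : T = (C₁ : ℝ) ^ 2 * ((N : ℝ) + 1) ^ 2 := by simp only [T]; ring
        rw [this]
        linarith
      set D : ℝ := (Cp + Cq) * (2 + Cf) * (1 + (C₁ : ℝ) ^ 2)
      have hD : 0 ≤ D := by positivity
      have h12 : (Cp + Cq) * ((2 + Cf) * (1 + T)) ≤ D * ((N : ℝ) + 1) ^ 2 := by
        have := mul_le_mul_of_nonneg_left h11 (by positivity : 0 ≤ (Cp + Cq) * (2 + Cf))
        calc (Cp + Cq) * ((2 + Cf) * (1 + T)) = (Cp + Cq) * (2 + Cf) * (1 + T) := by ring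
          _ ≤ (Cp + Cq) * (2 + Cf) * ((1 + (C₁ : ℝ) ^ 2) * ((N : ℝ) + 1) ^ 2) := this
          _ = _ := by simp only [D]; ring
      have h13 : D ≤ (C₂ : ℝ) ^ 2 := by nlinarith
      calc h (eval v p / eval v q) ≤ D * ((N : ℝ) + 1) ^ 2 := h9.trans h12
        _ ≤ (C₂ : ℝ) ^ 2 * ((N : ℝ) + 1) ^ 2 := mul_le_mul_of_nonneg_right h13 (by positivity)
        _ = _ := by ring
    · refine hM' o s fun v hv => ?_
      obtain ⟨h2, h3⟩ := hs v hv
      rw [Finset.mem_filter] at h2
      exact ⟨(hX2 N v h2.1).1, (div_eq_iff h2.2).1 h3⟩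

theorem Sparse.flat [CharZero K] {h : K → ℝ} {c : ℝ} (hh : IsHt h c) {O : Set K}
    (hO : Sparse h O) : Pool.Agent.TH783.CE.Flat O := by
  classical
  intro p₀ p₁ hp₀ hv
  by_contra hcon
  push Not at hcon
  obtain ⟨Cp, hCp, hCp'⟩ := hh.poly p₁
  obtain ⟨Cq, hCq, hCq'⟩ := hh.poly p₀
  have h2n := hh.nonneg 2
  have h1n := hh.nonneg 1
  obtain ⟨C₂, hC₂⟩ := exists_nat_gt ((Cp + Cq) * (1 + h 2 + h 1) + 1)
  have hinj : Function.Injective (fun k : ℕ => (2 : K) ^ k) := by
    intro i j hij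
    have : ((2 ^ i : ℕ) : K) = ((2 ^ j : ℕ) : K) := by push_cast; exact hij
    exact Nat.pow_right_injective le_rfl (Nat.cast_injective this)
  refine hO.contra (fun x => p₁.eval x / p₀.eval x)
    (fun N => ((Finset.range (N ^ 2)).image (fun k : ℕ => (2 : K) ^ k)).filter
      (fun x => p₀.eval x ≠ 0)) p₀.natDegree (max p₁.natDegree p₀.natDegree) C₂
    (fun N => ?_) (fun N x hx => ?_) (fun N o s hs => ?_)
  · set Y := (Finset.range (N ^ 2)).image (fun k : ℕ => (2 : K) ^ k)
    have h2 : Y.card = N ^ 2 := by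
      rw [Finset.card_image_of_injective _ hinj, Finset.card_range]
    have h3 := Finset.card_filter_add_card_filter_not (s := Y) (fun x => p₀.eval x ≠ 0)
    have h4 : (Y.filter (fun x => ¬ (p₀.eval x ≠ 0))).card ≤ p₀.natDegree := by
      refine le_trans (Finset.card_le_card (t := p₀.roots.toFinset) ?_)
        ((Multiset.toFinset_card_le _).trans (Polynomial.card_roots' _))
      intro x hx
      rw [Finset.mem_filter, not_not] at hx
      rw [Multiset.mem_toFinset, Polynomial.mem_roots hp₀]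
      exact hx.2
    omega
  · rw [Finset.mem_filter] at hx
    obtain ⟨k, hk, rfl⟩ := Finset.mem_image.1 hx.1
    refine ⟨hv _ hx.2, ?_⟩
    rw [Finset.mem_range] at hk
    have hk' : (k : ℝ) ≤ (N : ℝ) ^ 2 := by exact_mod_cast hk.le
    set x := (2 : K) ^ k
    have h4 : h (p₁.eval x / p₀.eval x) ≤ h (p₁.eval x) + h (p₀.eval x) := by
      rw [div_eq_mul_inv, ← hh.inv (p₀.eval x)]
      exact hh.mul _ _
    have h5 := hCp' x
    have h6 := hCq' x
    have h7 : h x ≤ (N : ℝ) ^ 2 * h 2 + h 1 := by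
      have := hh.pow_le 2 k
      nlinarith
    have h8 : 1 + h x ≤ (1 + h 2 + h 1) * ((N : ℝ) + 1) ^ 2 := by
      have hN : (0 : ℝ) ≤ N := Nat.cast_nonneg _
      nlinarith [mul_nonneg hN h2n, mul_nonneg hN h1n, mul_nonneg (sq_nonneg (N : ℝ)) h1n,
        mul_nonneg (sq_nonneg (N : ℝ)) h2n]
    have h9 : h (p₁.eval x / p₀.eval x) ≤ (Cp + Cq) * ((1 + h 2 + h 1) * ((N : ℝ) + 1) ^ 2) := by
      have := mul_le_mul_of_nonneg_left h8 (add_nonneg hCp hCq)
      linarith
    set D : ℝ := (Cp + Cq) * (1 + h 2 + h 1)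
    have hD : 0 ≤ D := by positivity
    have h13 : D ≤ (C₂ : ℝ) ^ 2 := by nlinarith
    calc h (p₁.eval x / p₀.eval x) ≤ D * ((N : ℝ) + 1) ^ 2 := by
          refine h9.trans (le_of_eq ?_)
          simp only [D]
          ring
      _ ≤ (C₂ : ℝ) ^ 2 * ((N : ℝ) + 1) ^ 2 := mul_le_mul_of_nonneg_right h13 (by positivity)
      _ = _ := by ring
  · have h2 : p₁ - Polynomial.C o * p₀ ≠ 0 := fun h0 => hcon o (sub_eq_zero.1 h0)
    refine le_trans (Finset.card_le_card (t := (p₁ - Polynomial.C o * p₀).roots.toFinset) ?_)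
      (((Multiset.toFinset_card_le _).trans (Polynomial.card_roots' _)).trans
        ((Polynomial.natDegree_sub_le _ _).trans (max_le_max le_rfl
          (Polynomial.natDegree_C_mul_le _ _))))
    intro x hx
    obtain ⟨h3, h4⟩ := hs x hx
    rw [Finset.mem_filter] at h3
    rw [Multiset.mem_toFinset, Polynomial.mem_roots h2, Polynomial.IsRoot.def,
      Polynomial.eval_sub, Polynomial.eval_mul, Polynomial.eval_C, sub_eq_zero]
    exact (div_eq_iff h3.2).1 h4

end Pool.Agent.Q168.EC
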